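import Pool.Agent.Lib.MP_2e2eba_pr.Main

open Filter Topology
open Pool.Agent.Lib.MP_2e2eba_pr

namespace Pool.Agent.Results.MP_2e2eba_pr.ChaosConverges

/-- For every percolation operator, the critical points `θ*_T` of `chaos (P^T)` converge to the
critical value `θ*` of `P` as `T → ∞`. -/
theorem result (d n : ℕ) (_hd : 1 ≤ d) (hn : 1 ≤ n) (v : Fin n → Site d)
    (_hv : Function.Injective v) :
    Tendsto (fun T : ℕ => thetaStarT v T) atTop (𝓝 (thetaStar v)) :=
  main v hn

end Pool.Agent.Results.MP_2e2eba_pr.ChaosConverges
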